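import Pool.Agent.Helper75.PZ.Stmts

set_option autoImplicit false

universe u

open Module TensorProduct

namespace Pool.Agent.Helper45.PZ

open Pool.Agent.Helper75.PX Pool.Agent.Helper75.PZ

theorem n1_add (a b : G2) : n1 (a + b) = n1 a + n1 b := rfl

theorem n2_add (a b : G2) : n2 (a + b) = n2 a + n2 b := rfl

theorem n1_nsmul (k : ℕ) (a : G2) : n1 (k • a) = k * n1 a := by
  induction k with
  | zero => simp [n1]
  | succ k ih => rw [succ_nsmul, n1_add, ih]; push_cast; ring

theorem n2_nsmul (k : ℕ) (a : G2) : n2 (k • a) = k * n2 a := by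
  induction k with
  | zero => simp [n2]
  | succ k ih => rw [succ_nsmul, n2_add, ih]; push_cast; ring

section

variable {F K A M : Type u} [Field F] [Field K] [Field M] [Ring A] [Nontrivial A]
  [Algebra F K] [Algebra K A] [Algebra F M] (σ : M ≃ₐ[F] M) (g : A → G2) (c : A → M)

theorem am_ne (x : K) (hx : x ≠ 0) : algebraMap K A x ≠ 0 :=
  (map_ne_zero_iff _ (algebraMap K A).injective).2 hx

theorem sig_pow (hσ : ∀ m, σ (σ (σ m)) = m) (n : ℤ) (hn : 6 ∣ n) (m : M) : (σ ^ n) m = m := by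
  obtain ⟨k, hk⟩ := hn
  have h3 : σ ^ (3 : ℤ) = 1 := by
    ext m
    exact hσ m
  have : σ ^ n = 1 := by
    rw [hk, show (6 : ℤ) * k = 3 * (2 * k) by ring, zpow_mul, h3, one_zpow]
  rw [this]
  rfl

theorem gg_mul (H : SYM (K := K) σ g c) (x y : K) (hx : x ≠ 0) (hy : y ≠ 0) :
    g (algebraMap K A (x * y)) = g (algebraMap K A x) + g (algebraMap K A y) := by
  rw [map_mul]
  exact H.gmul _ _ (am_ne x hx) (am_ne y hy)

theorem cc_mul (hσ : ∀ m, σ (σ (σ m)) = m) (H : SYM (K := K) σ g c) (x y : K) (hx : x ≠ 0)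
    (hy : y ≠ 0) :
    c (algebraMap K A (x * y)) = c (algebraMap K A x) * c (algebraMap K A y) := by
  rw [map_mul, H.cmul _ _ (am_ne x hx) (am_ne y hy)]
  obtain ⟨h1, h2, h3⟩ := H.ks x hx
  rw [sig_pow σ hσ _ h1]
  have hev : Even (n1 (g (algebraMap K A x)) * n2 (g (algebraMap K A y))) := by
    have : Even (n1 (g (algebraMap K A x))) := by
      obtain ⟨k, hk⟩ := h1
      exact ⟨3 * k, by rw [hk]; ring⟩
    exact this.mul_right _
  rw [hev.neg_one_zpow, mul_one]

theorem gg_one (H : SYM (K := K) σ g c) : g (algebraMap K A 1) = 0 := by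
  have := (H.fs 1 one_ne_zero).1
  rwa [map_one] at this

theorem gg_pow (H : SYM (K := K) σ g c) (x : K) (hx : x ≠ 0) (k : ℕ) :
    g (algebraMap K A (x ^ k)) = k • g (algebraMap K A x) := by
  induction k with
  | zero => rw [pow_zero, gg_one σ g c H, zero_smul]
  | succ k ih => rw [pow_succ, gg_mul σ g c H _ _ (pow_ne_zero _ hx) hx, ih, succ_nsmul]

/-- residues -/
def Rel (x : K) (m : M) : Prop :=
  (x ≠ 0 ∧ g (algebraMap K A x) = 0 ∧ c (algebraMap K A x) = m ∧ m ≠ 0) ∨
    ((x = 0 ∨ 0 < g (algebraMap K A x)) ∧ m = 0)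

theorem rel_add (H : SYM (K := K) σ g c) {x y : K} {m m' : M} (h1 : Rel g c x m)
    (h2 : Rel g c y m') : Rel g c (x + y) (m + m') := by
  rcases eq_or_ne x 0 with hx0 | hx0
  · rcases h1 with h1 | h1
    · exact absurd hx0 h1.1
    · rw [hx0, h1.2, zero_add, zero_add]
      exact h2
  rcases eq_or_ne y 0 with hy0 | hy0
  · rcases h2 with h2 | h2
    · exact absurd hy0 h2.1
    · rw [hy0, h2.2, add_zero, add_zero]
      exact h1
  have inj : ∀ z : K, algebraMap K A z = 0 → z = 0 := fun z hz => by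
    by_contra h
    exact am_ne (A := A) z h hz
  rcases h1 with ⟨-, a2, a3, a4⟩ | ⟨a1, a2⟩ <;> rcases h2 with ⟨-, b2, b3, b4⟩ | ⟨b1, b2⟩
  · by_cases hm : m + m' = 0
    · rcases H.addz _ _ (am_ne x hx0) (am_ne y hy0) (a2.trans b2.symm) (by rw [a3, b3, hm])
        with h | h
      · rw [← map_add] at h
        exact Or.inr ⟨Or.inl (inj _ h), hm⟩
      · rw [← map_add, a2] at h
        exact Or.inr ⟨Or.inr h, hm⟩
    · obtain ⟨q1, q2, q3⟩ := H.addeq _ _ (am_ne x hx0) (am_ne y hy0) (a2.trans b2.symm)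
        (by rw [a3, b3]; exact hm)
      rw [← map_add] at q1 q2 q3
      refine Or.inl ⟨fun h => q1 (by rw [h, map_zero]), by rw [q2, a2], by rw [q3, a3, b3], hm⟩
  · have hb : 0 < g (algebraMap K A y) := b1.resolve_left hy0
    obtain ⟨q1, q2, q3⟩ := H.addlt _ _ (am_ne x hx0) (am_ne y hy0) (by rw [a2]; exact hb)
    rw [← map_add] at q1 q2 q3
    rw [b2, add_zero]
    refine Or.inl ⟨fun h => q1 (by rw [h, map_zero]), by rw [q2, a2], by rw [q3, a3], a4⟩
  · have hb : 0 < g (algebraMap K A x) := a1.resolve_left hx0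
    obtain ⟨q1, q2, q3⟩ := H.addlt _ _ (am_ne y hy0) (am_ne x hx0) (by rw [b2]; exact hb)
    rw [← map_add] at q1 q2 q3
    rw [a2, zero_add, add_comm x y]
    refine Or.inl ⟨fun h => q1 (by rw [h, map_zero]), by rw [q2, b2], by rw [q3, b3], b4⟩
  · have ha : 0 < g (algebraMap K A x) := a1.resolve_left hx0
    have hb : 0 < g (algebraMap K A y) := b1.resolve_left hy0
    rw [a2, b2, add_zero]
    refine Or.inr ⟨?_, rfl⟩
    rcases lt_trichotomy (g (algebraMap K A x)) (g (algebraMap K A y)) with h | h | h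
    · obtain ⟨q1, q2, q3⟩ := H.addlt _ _ (am_ne x hx0) (am_ne y hy0) h
      rw [← map_add] at q2
      right
      rw [q2]
      exact ha
    · by_cases hm : c (algebraMap K A x) + c (algebraMap K A y) = 0
      · rcases H.addz _ _ (am_ne x hx0) (am_ne y hy0) h hm with h' | h'
        · rw [← map_add] at h'
          exact Or.inl (inj _ h')
        · rw [← map_add] at h'
          exact Or.inr (ha.trans h')
      · obtain ⟨q1, q2, q3⟩ := H.addeq _ _ (am_ne x hx0) (am_ne y hy0) h hm
        rw [← map_add] at q2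
        right
        rw [q2]
        exact ha
    · obtain ⟨q1, q2, q3⟩ := H.addlt _ _ (am_ne y hy0) (am_ne x hx0) h
      rw [← map_add] at q2
      right
      rw [add_comm x y, q2]
      exact hb

theorem rel_mul (hσ : ∀ m, σ (σ (σ m)) = m) (H : SYM (K := K) σ g c) {x y : K} {m m' : M}
    (h1 : Rel g c x m) (h2 : Rel g c y m') : Rel g c (x * y) (m * m') := by
  rcases eq_or_ne x 0 with hx0 | hx0
  · rcases h1 with h1 | h1
    · exact absurd hx0 h1.1
    · rw [hx0, h1.2, zero_mul, zero_mul]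
      exact Or.inr ⟨Or.inl rfl, rfl⟩
  rcases eq_or_ne y 0 with hy0 | hy0
  · rcases h2 with h2 | h2
    · exact absurd hy0 h2.1
    · rw [hy0, h2.2, mul_zero, mul_zero]
      exact Or.inr ⟨Or.inl rfl, rfl⟩
  have hg := gg_mul σ g c H x y hx0 hy0
  have hc := cc_mul σ g c hσ H x y hx0 hy0
  rcases h1 with ⟨-, a2, a3, a4⟩ | ⟨a1, a2⟩ <;> rcases h2 with ⟨-, b2, b3, b4⟩ | ⟨b1, b2⟩
  · exact Or.inl ⟨mul_ne_zero hx0 hy0, by rw [hg, a2, b2, add_zero], by rw [hc, a3, b3],
      mul_ne_zero a4 b4⟩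
  · have hb : 0 < g (algebraMap K A y) := b1.resolve_left hy0
    exact Or.inr ⟨Or.inr (by rw [hg, a2, zero_add]; exact hb), by rw [b2, mul_zero]⟩
  · have hb : 0 < g (algebraMap K A x) := a1.resolve_left hx0
    exact Or.inr ⟨Or.inr (by rw [hg, b2, add_zero]; exact hb), by rw [a2, zero_mul]⟩
  · have ha : 0 < g (algebraMap K A x) := a1.resolve_left hx0
    have hb : 0 < g (algebraMap K A y) := b1.resolve_left hy0
    exact Or.inr ⟨Or.inr (by rw [hg]; exact add_pos ha hb), by rw [a2, zero_mul]⟩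

theorem rel_F (H : SYM (K := K) σ g c) (r : F) : Rel g c (algebraMap F K r) (algebraMap F M r) := by
  rcases eq_or_ne r 0 with h | h
  · rw [h, map_zero, map_zero]
    exact Or.inr ⟨Or.inl rfl, rfl⟩
  · obtain ⟨h1, h2⟩ := H.fs r h
    exact Or.inl ⟨(map_ne_zero_iff _ (algebraMap F K).injective).2 h, h1, h2,
      (map_ne_zero_iff _ (algebraMap F M).injective).2 h⟩

theorem rel_poly (hσ : ∀ m, σ (σ (σ m)) = m) (H : SYM (K := K) σ g c) (x : K) (m : M)
    (hx : Rel g c x m) (p : Polynomial F) :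
    Rel g c (Polynomial.aeval x p) (Polynomial.aeval m p) := by
  induction p using Polynomial.induction_on' with
  | add p q hp hq =>
    rw [map_add, map_add]
    exact rel_add σ g c H hp hq
  | monomial n a =>
    rw [Polynomial.aeval_monomial, Polynomial.aeval_monomial]
    refine rel_mul σ g c hσ H (rel_F σ g c H a) ?_
    induction n with
    | zero =>
      rw [pow_zero, pow_zero]
      have := rel_F σ g c H (1 : F)
      rwa [map_one, map_one] at this
    | succ n ih =>
      rw [pow_succ, pow_succ]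
      exact rel_mul σ g c hσ H ih hx

theorem sum_ne (H : SYM (K := K) σ g c) {ι : Type*} [DecidableEq ι] (f : ι → K) (S : Finset ι) :
    S.Nonempty → (∀ i ∈ S, f i ≠ 0) →
    (∀ i ∈ S, ∀ j ∈ S, g (algebraMap K A (f i)) = g (algebraMap K A (f j)) → i = j) →
    ∃ i ∈ S, ∑ j ∈ S, f j ≠ 0 ∧ g (algebraMap K A (∑ j ∈ S, f j)) = g (algebraMap K A (f i)) := by
  induction S using Finset.induction_on with
  | empty => intro h; exact absurd h Finset.not_nonempty_empty
  | insert a S ha ih =>
    intro _ h0 hinj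
    rw [Finset.sum_insert ha]
    rcases S.eq_empty_or_nonempty with hS | hS
    · subst hS
      refine ⟨a, Finset.mem_insert_self _ _, ?_, ?_⟩
      · simpa using h0 a (Finset.mem_insert_self _ _)
      · simp
    · obtain ⟨i, hi, hs, hgi⟩ := ih hS (fun j hj => h0 j (Finset.mem_insert_of_mem hj))
        (fun j hj l hl => hinj j (Finset.mem_insert_of_mem hj) l (Finset.mem_insert_of_mem hl))
      have hfa := h0 a (Finset.mem_insert_self _ _)
      have hne : g (algebraMap K A (f a)) ≠ g (algebraMap K A (f i)) := fun h => by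
        have := hinj a (Finset.mem_insert_self _ _) i (Finset.mem_insert_of_mem hi) h
        rw [this] at ha
        exact ha hi
      rcases lt_or_gt_of_ne hne with h | h
      · obtain ⟨q1, q2, q3⟩ := H.addlt _ _ (am_ne (f a) hfa) (am_ne (∑ j ∈ S, f j) hs)
          (by rw [hgi]; exact h)
        rw [← map_add] at q1 q2
        exact ⟨a, Finset.mem_insert_self _ _, fun h => q1 (by rw [h, map_zero]), q2⟩
      · obtain ⟨q1, q2, q3⟩ := H.addlt _ _ (am_ne (∑ j ∈ S, f j) hs) (am_ne (f a) hfa)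
          (by rw [hgi]; exact h)
        rw [← map_add, add_comm] at q1 q2
        exact ⟨i, Finset.mem_insert_of_mem hi, fun h => q1 (by rw [h, map_zero]), q2.trans hgi⟩

end

theorem st_AB : ST_AB.{u} := by
  intro F K A M _ _ _ _ _ _ _ _ σ g c hσ H x₁ x₂ x₃ h1 h2 h3 hdet hg3 htr
  classical
  rw [algebraicIndependent_iff]
  intro P hP
  by_contra hP0
  have hR3 : Rel g c x₃ (c (algebraMap K A x₃)) := Or.inl ⟨h3, hg3, rfl, H.c0 _ (am_ne x₃ h3)⟩
  -- the polynomials in the third variable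
  let q : ℕ × ℕ → Polynomial F := fun t =>
    ∑ d ∈ P.support.filter (fun d => (d 0, d 1) = t), Polynomial.monomial (d 2) (P.coeff d)
  let T : Finset (ℕ × ℕ) := P.support.image (fun d => (d 0, d 1))
  let f : ℕ × ℕ → K := fun t => Polynomial.aeval x₃ (q t) * (x₁ ^ t.1 * x₂ ^ t.2)
  have hq : ∀ t ∈ T, q t ≠ 0 := by
    intro t ht
    obtain ⟨d, hd, hdt⟩ := Finset.mem_image.1 ht
    intro h
    have hc : (q t).coeff (d 2) = P.coeff d := by
      show (∑ d' ∈ P.support.filter (fun d => (d 0, d 1) = t),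
        Polynomial.monomial (d' 2) (P.coeff d')).coeff (d 2) = P.coeff d
      rw [Polynomial.finset_sum_coeff, Finset.sum_eq_single d]
      · rw [Polynomial.coeff_monomial, if_pos rfl]
      · intro b hb hbd
        rw [Polynomial.coeff_monomial, if_neg]
        intro h2
        apply hbd
        have hb2 := (Finset.mem_filter.1 hb).2
        rw [← hdt] at hb2
        have e0 : b 0 = d 0 := congrArg Prod.fst hb2
        have e1 : b 1 = d 1 := congrArg Prod.snd hb2
        ext i
        fin_cases i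
        · exact e0
        · exact e1
        · exact h2
      · intro hnot
        exact absurd (Finset.mem_filter.2 ⟨hd, hdt⟩) hnot
    rw [h, Polynomial.coeff_zero] at hc
    exact (MvPolynomial.mem_support_iff.1 hd) hc.symm
  have hsum : ∑ t ∈ T, f t = 0 := by
    rw [← hP, MvPolynomial.aeval_def, MvPolynomial.eval₂_eq']
    rw [← Finset.sum_fiberwise_of_maps_to (s := P.support) (t := T)
      (g := fun d => (d 0, d 1)) (fun d hd => Finset.mem_image_of_mem _ hd)]
    apply Finset.sum_congr rfl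
    intro t ht
    show Polynomial.aeval x₃ (∑ d ∈ P.support.filter (fun d => (d 0, d 1) = t),
      Polynomial.monomial (d 2) (P.coeff d)) * (x₁ ^ t.1 * x₂ ^ t.2) = _
    rw [map_sum, Finset.sum_mul]
    apply Finset.sum_congr rfl
    intro d hd
    have hdt := (Finset.mem_filter.1 hd).2
    rw [Polynomial.aeval_monomial, ← hdt, Fin.prod_univ_three]
    simp
    ring
  have hres : ∀ t ∈ T, Polynomial.aeval x₃ (q t) ≠ 0 ∧
      g (algebraMap K A (Polynomial.aeval x₃ (q t))) = 0 := by
    intro t ht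
    have hr := rel_poly σ g c hσ H x₃ _ hR3 (q t)
    have hne : Polynomial.aeval (c (algebraMap K A x₃)) (q t) ≠ 0 := fun h =>
      hq t ht ((transcendental_iff.1 htr) (q t) h)
    rcases hr with hr | hr
    · exact ⟨hr.1, hr.2.1⟩
    · exact absurd hr.2 hne
  have hgf : ∀ t ∈ T, f t ≠ 0 ∧ g (algebraMap K A (f t)) =
      t.1 • g (algebraMap K A x₁) + t.2 • g (algebraMap K A x₂) := by
    intro t ht
    obtain ⟨r1, r2⟩ := hres t ht
    have p1 : x₁ ^ t.1 ≠ 0 := pow_ne_zero _ h1
    have p2 : x₂ ^ t.2 ≠ 0 := pow_ne_zero _ h2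
    refine ⟨mul_ne_zero r1 (mul_ne_zero p1 p2), ?_⟩
    show g (algebraMap K A (Polynomial.aeval x₃ (q t) * (x₁ ^ t.1 * x₂ ^ t.2))) = _
    rw [gg_mul σ g c H _ _ r1 (mul_ne_zero p1 p2), gg_mul σ g c H _ _ p1 p2, r2, zero_add,
      gg_pow σ g c H _ h1, gg_pow σ g c H _ h2]
  have hT : T.Nonempty := by
    have : P.support.Nonempty := by
      rw [Finset.nonempty_iff_ne_empty]
      intro h
      exact hP0 (MvPolynomial.support_eq_empty.1 h)
    exact this.image _
  obtain ⟨i, -, hs, -⟩ := sum_ne σ g c H f T hT (fun t ht => (hgf t ht).1) (by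
    intro s hs t ht hst
    rw [(hgf s hs).2, (hgf t ht).2] at hst
    have e1 := congrArg n1 hst
    have e2 := congrArg n2 hst
    rw [n1_add, n1_add, n1_nsmul, n1_nsmul, n1_nsmul, n1_nsmul] at e1
    rw [n2_add, n2_add, n2_nsmul, n2_nsmul, n2_nsmul, n2_nsmul] at e2
    generalize n1 (g (algebraMap K A x₁)) = a1 at *
    generalize n1 (g (algebraMap K A x₂)) = b1 at *
    generalize n2 (g (algebraMap K A x₁)) = a2 at *
    generalize n2 (g (algebraMap K A x₂)) = b2 at *
    have f1 : ((s.1 : ℤ) - t.1) * (a1 * b2 - b1 * a2) = 0 := by linear_combination b2 * e1 - b1 * e2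
    have f2 : ((s.2 : ℤ) - t.2) * (a1 * b2 - b1 * a2) = 0 := by
      linear_combination a1 * e2 - a2 * e1
    have g1 := (mul_eq_zero.1 f1).resolve_right hdet
    have g2 := (mul_eq_zero.1 f2).resolve_right hdet
    have k1 : s.1 = t.1 := by omega
    have k2 : s.2 = t.2 := by omega
    exact Prod.ext k1 k2)
  exact hs hsum

end Pool.Agent.Helper45.PZ
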