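import Pool.Agent.Helper75.PZ.Stmts2

set_option autoImplicit false

universe u

open Module TensorProduct

namespace Pool.Agent.Helper45.PZ

open Pool.Agent.Helper75.PX Pool.Agent.Helper75.PZ

theorem hs_ord {M : Type u} [Field M] {x : HS M} (hx : x ≠ 0) : x.orderTop = (x.order : WithTop G2) :=
  (HahnSeries.order_eq_orderTop_of_ne_zero hx).symm

theorem hs_addlt {M : Type u} [Field M] {x y : HS M} (hx : x ≠ 0) (hy : y ≠ 0)
    (h : x.order < y.order) :
    x + y ≠ 0 ∧ (x + y).order = x.order ∧ (x + y).leadingCoeff = x.leadingCoeff := by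
  have h1 : x.orderTop < y.orderTop := by
    rw [hs_ord hx, hs_ord hy]
    exact WithTop.coe_lt_coe.2 h
  have h2 := HahnSeries.orderTop_add_eq_left h1
  have h3 := HahnSeries.leadingCoeff_add_eq_left h1
  have h4 : x + y ≠ 0 := by
    intro h0
    rw [h0, HahnSeries.orderTop_zero] at h2
    exact hx (HahnSeries.orderTop_eq_top.1 h2.symm)
  refine ⟨h4, ?_, h3⟩
  rw [hs_ord h4, hs_ord hx] at h2
  exact WithTop.coe_injective h2

theorem hs_addeq {M : Type u} [Field M] {x y : HS M} (hx : x ≠ 0) (hy : y ≠ 0)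
    (h : x.order = y.order) (hc : x.leadingCoeff + y.leadingCoeff ≠ 0) :
    x + y ≠ 0 ∧ (x + y).order = x.order ∧
      (x + y).leadingCoeff = x.leadingCoeff + y.leadingCoeff := by
  have h1 : (x + y).coeff x.order = x.leadingCoeff + y.leadingCoeff := by
    rw [HahnSeries.coeff_add, HahnSeries.leadingCoeff_eq, HahnSeries.leadingCoeff_eq, h]
  have h4 : x + y ≠ 0 := by
    intro h0
    rw [h0, HahnSeries.coeff_zero] at h1
    exact hc h1.symm
  have h5 : (x + y).order = x.order := by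
    apply le_antisymm
    · apply HahnSeries.order_le_of_coeff_ne_zero
      rw [h1]
      exact hc
    · have := HahnSeries.min_order_le_order_add h4
      rwa [h, min_self, ← h] at this
  refine ⟨h4, h5, ?_⟩
  rw [HahnSeries.leadingCoeff_eq, h5, h1]

theorem hs_addz {M : Type u} [Field M] {x y : HS M} (hx : x ≠ 0) (hy : y ≠ 0)
    (h : x.order = y.order) (hc : x.leadingCoeff + y.leadingCoeff = 0) :
    x + y = 0 ∨ x.order < (x + y).order := by
  by_cases h0 : x + y = 0
  · exact Or.inl h0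
  · right
    have h1 : (x + y).coeff x.order = 0 := by
      rw [HahnSeries.coeff_add]
      rw [HahnSeries.leadingCoeff_eq, HahnSeries.leadingCoeff_eq, ← h] at hc
      exact hc
    have h2 := HahnSeries.min_order_le_order_add h0
    rw [h, min_self, ← h] at h2
    refine lt_of_le_of_ne h2 fun h3 => ?_
    rw [h3] at h1
    exact h0 (HahnSeries.coeff_order_eq_zero.1 h1)

theorem st_SY (hGD : ST_GD.{u}) : ST_SY.{u} := by
  intro F M _ _ _ σ φ ψ h2 hφ hψ hσ K hK A _ _ E Φ hΦ hΦK
  have hE : ∀ x : A, x ≠ 0 → E x ≠ 0 := fun x hx h => hx (by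
    rw [← E.map_zero] at h
    exact E.injective h)
  have one_ne : (1 : HS M) ≠ 0 := one_ne_zero
  have hne : ∀ x : A, x ≠ 0 → Φ x 1 ≠ 0 := by
    intro x hx
    rw [hΦ]
    exact (hGD F M σ φ ψ hφ hψ hσ (E x) (hE x hx) 1 one_ne).1
  have hadd : ∀ x y : A, Φ (x + y) 1 = Φ x 1 + Φ y 1 := by
    intro x y
    rw [map_add]
    rfl
  have hmul : ∀ x y : A, Φ (x * y) 1 = op φ ψ (E x) (Φ y 1) := by
    intro x y
    rw [map_mul, ← hΦ]
    rfl
  have hz : ∀ x y : A, x + y = 0 ∨ Φ (x + y) 1 ≠ 0 := by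
    intro x y
    by_cases h : x + y = 0
    · exact Or.inl h
    · exact Or.inr (hne _ h)
  have hzero : ∀ z : A, Φ z 1 = 0 → z = 0 := fun z hz => by
    by_contra h
    exact hne z h hz
  refine ⟨?_, ?_, ?_, ?_, ?_, ?_, ?_, ?_, ?_⟩
  · intro x hx
    exact HahnSeries.leadingCoeff_ne_zero.2 (hne x hx)
  · intro x y hx hy
    exact mul_ne_zero hx hy
  · intro x y hx hy
    have h1 := (hGD F M σ φ ψ hφ hψ hσ (E x) (hE x hx) (Φ y 1) (hne y hy)).2.1
    show (Φ (x * y) 1).order = (Φ x 1).order + (Φ y 1).order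
    rw [hmul, h1, ← hΦ]
  · intro x y hx hy
    have h1 := (hGD F M σ φ ψ hφ hψ hσ (E x) (hE x hx) (Φ y 1) (hne y hy)).2.2
    show (Φ (x * y) 1).leadingCoeff = (Φ x 1).leadingCoeff *
      (-1 : M) ^ (n1 (Φ x 1).order * n2 (Φ y 1).order) * (σ ^ (n1 (Φ x 1).order)) (Φ y 1).leadingCoeff
    rw [hmul, h1, ← hΦ]
  · intro x y hx hy hxy
    obtain ⟨a1, a2, a3⟩ := hs_addlt (hne x hx) (hne y hy) hxy
    rw [← hadd] at a1 a2 a3
    exact ⟨fun h => a1 (by rw [h, map_zero]; rfl), a2, a3⟩
  · intro x y hx hy hxy hc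
    obtain ⟨a1, a2, a3⟩ := hs_addeq (hne x hx) (hne y hy) hxy hc
    rw [← hadd] at a1 a2 a3
    exact ⟨fun h => a1 (by rw [h, map_zero]; rfl), a2, a3⟩
  · intro x y hx hy hxy hc
    rcases hs_addz (hne x hx) (hne y hy) hxy hc with h | h
    · rw [← hadd] at h
      exact Or.inl (hzero _ h)
    · rw [← hadd] at h
      exact Or.inr h
  · intro r hr
    have h1 : Φ (algebraMap K A (algebraMap F K r)) 1 = HahnSeries.C (algebraMap F M r) := by
      rw [hΦK, mul_one]
      have : ((algebraMap F K r : K) : HS M) = algebraMap F (HS M) r := rfl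
      rw [this, ψ.commutes, HahnSeries.algebraMap_apply]
    have h3 : algebraMap F M r ≠ 0 := (map_ne_zero_iff _ (algebraMap F M).injective).2 hr
    show (Φ (algebraMap K A (algebraMap F K r)) 1).order = 0 ∧
      (Φ (algebraMap K A (algebraMap F K r)) 1).leadingCoeff = algebraMap F M r
    rw [h1]
    refine ⟨HahnSeries.order_C, ?_⟩
    rw [HahnSeries.leadingCoeff_eq, HahnSeries.order_C]
    simp
  · intro k hk
    have h1 : Φ (algebraMap K A k) 1 = ψ (k : HS M) := by rw [hΦK, mul_one]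
    show 6 ∣ n1 (Φ (algebraMap K A k) 1).order ∧ 2 ∣ n2 (Φ (algebraMap K A k) 1).order ∧
      σ (Φ (algebraMap K A k) 1).leadingCoeff = (Φ (algebraMap K A k) 1).leadingCoeff
    rw [h1]
    have hk0 : (k : HS M) ≠ 0 := fun h => hk (Subtype.ext h)
    have hψk : ψ (k : HS M) ≠ 0 := (map_ne_zero_iff _ ψ.toRingHom.injective).2 hk0
    have hlc : (ψ (k : HS M)).coeff (ψ (k : HS M)).order ≠ 0 := fun h =>
      hψk (HahnSeries.coeff_order_eq_zero.1 h)
    have h6 : 6 ∣ n1 (ψ (k : HS M)).order := by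
      by_contra h
      exact hlc (hψ.2 _ _ h)
    refine ⟨h6, ?_⟩
    rw [HahnSeries.leadingCoeff_eq]
    obtain ⟨j, hj⟩ := h6
    have hc1 := hψ.1 (k : HS M) (toLex (j, n2 (ψ (k : HS M)).order)) (ψ (k : HS M)).order hj rfl
    have hfix : φ (k : HS M) = k := (hK k).1 k.2
    have hc2 := hφ (k : HS M) (toLex (j, n2 (ψ (k : HS M)).order))
    rw [hfix, ← hc1] at hc2
    have hn : n2 (toLex (j, n2 (ψ (k : HS M)).order) : G2) = n2 (ψ (k : HS M)).order := rfl
    rw [hn] at hc2
    generalize (ψ (k : HS M)).coeff (ψ (k : HS M)).order = m at *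
    generalize n2 (ψ (k : HS M)).order = b at *
    rcases Int.even_or_odd b with hb | hb
    · rw [hb.neg_one_zpow, one_mul] at hc2
      exact ⟨hb.two_dvd, hc2.symm⟩
    · exfalso
      rw [hb.neg_one_zpow, neg_one_mul] at hc2
      have e1 : σ m = -m := by linear_combination hc2
      have e2 := hσ m
      rw [e1, map_neg, e1, neg_neg, e1] at e2
      have e3 : (2 : M) * m = 0 := by
        have : -m + 2 * m = m := by ring
        linear_combination this - e2 + 0
      have e4 : (2 : M) ≠ 0 := by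
        have := (map_ne_zero_iff _ (algebraMap F M).injective).2 h2
        rwa [map_ofNat] at this
      exact hlc ((mul_eq_zero.1 e3).resolve_left e4)

end Pool.Agent.Helper45.PZ
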